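import Pool.Agent.Lib.H47Y.V

/-! # H47Z: the two main clauses of `ThetaThroughEveryEdge`, to be joined to another theorem on plane subdrawings -/

set_option autoImplicit false

namespace H47Z

open SimpleDraw

/-- The lists in `L` are the inner vertices, in order, of internally disjoint paths from `s` to `t` in the graph `G`
which have at least one inner vertex and together visit all vertices: no list is empty, the concatenation of the lists
has no repetition and consists of all vertices except `s` and `t`, and for each list `l` in `L` consecutive terms of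
`s, l, t` are adjacent in `G`. -/
structure SpanningPaths {n : ℕ} (G : SimpleGraph (Fin n)) (s t : Fin n) (L : List (List (Fin n))) : Prop where
  nonempty : ∀ l ∈ L, l ≠ []
  nodup : L.flatten.Nodup
  mem : ∀ v, v ∈ L.flatten ↔ v ≠ s ∧ v ≠ t
  chain : ∀ l ∈ L, (s :: (l ++ [t])).IsChain G.Adj

/-- A fractional Hamiltonian cycle without nontrivial tight cuts and with support `H`: `y a b = y b a` lies strictly
between `0` and `1` for the edges `ab` of `H` and is zero for the other pairs, the sum is `2` at every vertex and more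
than `2` across every cut with at least two vertices on both sides. -/
structure StrictWeights {n : ℕ} (H : SimpleGraph (Fin n)) (y : Fin n → Fin n → ℝ) : Prop where
  symm : ∀ a b, y a b = y b a
  zero : ∀ a b, ¬ H.Adj a b → y a b = 0
  lt : ∀ a b, H.Adj a b → 0 < y a b ∧ y a b < 1
  sum : ∀ a, ∑ b, y a b = 2
  cut : ∀ S : Finset (Fin n), 2 ≤ S.card → 2 ≤ Sᶜ.card → 2 < ∑ a ∈ S, ∑ b ∈ Sᶜ, y a b

/-- Let `n ≥ 3`, let `D` be a simple drawing of `K_n` and let `st` be an edge of it.
(b) `D` has a plane subdrawing with exactly `2n - 3` edges which contains the edge `st` and internally disjoint paths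
from `s` to `t` which together visit all vertices.
(c) `D` has a plane subdrawing with exactly `2n - 3` edges which contains a spanning tree of maximum degree at most `3`
and a Hamiltonian cycle (the assertion of Q1 for `D`) or a subgraph `H` without the edge `st` which is 3-connected
(`H - X` is connected for all sets `X` of at most two vertices) and the support of `StrictWeights`. -/
theorem block {n : ℕ} (hn : 3 ≤ n) (D : SimpleDrawing n) {s t : Fin n} (hst : s ≠ t) :
    (∃ G : SimpleGraph (Fin n), D.Plane G ∧ G.edgeSet.ncard = 2 * n - 3 ∧ G.Adj s t ∧ ∃ L, SpanningPaths G s t L) ∧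
    ∃ G : SimpleGraph (Fin n), D.Plane G ∧ G.edgeSet.ncard = 2 * n - 3 ∧
      (∃ T ≤ G, T.IsTree ∧ ∀ v, (T.neighborSet v).ncard ≤ 3) ∧
      ((∃ (a : Fin n) (c : G.Walk a a), c.IsHamiltonianCycle) ∨
        ∃ H ≤ G, ¬ H.Adj s t ∧ (∃ y, StrictWeights H y) ∧
          ∀ X : Finset (Fin n), X.card ≤ 2 → (H.induce {v | v ∉ X}).Connected) := by
  constructor
  · obtain ⟨G, h1, h0, ⟨h2, L, ⟨h3, h4, h5, h6⟩, -⟩ | ⟨h2, -⟩, -⟩ :=
      H47Y.uniform_tree hn D hst (M := (n : ℝ)) (Nat.cast_nonneg n)
    · exact ⟨G, h1, h0, h2, L, ⟨h3, h4, h5, h6⟩⟩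
    · linarith
  · obtain ⟨G, h1, h0, -, h3⟩ := H47Y.uniform_tree hn D hst (M := (0 : ℝ)) le_rfl
    refine ⟨G, h1, h0, (h3 rfl).1, (h3 rfl).2.imp_right ?_⟩
    rintro ⟨H, k1, k2, ⟨z, z1, z2, z3, z4⟩, k3, -⟩
    exact ⟨H, k1, k2, ⟨z, ⟨z1.2.1, fun a b h1 => by_contra fun h2 => h1 (z1.2.2 a b h2), z2, z3, z4⟩⟩, k3⟩

end H47Z
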